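import Mathlib
import Pool.Agent.K7.H67.RC.Thr

/-!
# MP_54ec50_nt: the six congruences for `R^5(q) / R(q^5)` and its reciprocal

`R(q) = (q; q^5) (q^4; q^5) / ((q^2; q^5) (q^3; q^5))` as a formal power series. For all `n`:
`C(27 n + 18)` and `D(27 n + 18)` are divisible by `3`, `C(16 n + 12)` and `D(16 n + 12)` by `4`,
`C(32 n + 28)` and `D(32 n + 28)` by `8`.
-/

set_option autoImplicit false

namespace Pool.Agent.Results.MP_54ec50_nt.AllSixCongruences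

open PowerSeries

/-- The formal power series `(q^a; q^5)_∞ = ∏_{k ≥ 0} (1 - q^(5 k + a))` (for `a ≥ 1`): its coefficient
of `q^n` is that of the finite product over `k ≤ n`. -/
noncomputable def poch (a : ℕ) : ℤ⟦X⟧ :=
  PowerSeries.mk fun n => coeff n (∏ k ∈ Finset.range (n + 1), (1 - (X : ℤ⟦X⟧) ^ (5 * k + a)))

/-- `R(q)`: the inverse is the inverse of a power series with constant term `1`. -/
noncomputable def R : ℤ⟦X⟧ := poch 1 * poch 4 * invOfUnit (poch 2 * poch 3) 1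

/-- `R(q^5)` -/
noncomputable def R5 : ℤ⟦X⟧ := PowerSeries.expand 5 (by norm_num) R

/-- the coefficients `C(n)` of `R(q)^5 / R(q^5)` -/
noncomputable def Cc (n : ℕ) : ℤ := coeff n (R ^ 5 * invOfUnit R5 1)

/-- the coefficients `D(n)` of `R(q^5) / R(q)^5` -/
noncomputable def Dc (n : ℕ) : ℤ := coeff n (R5 * invOfUnit (R ^ 5) 1)

open Pool.Agent.K7.H67.RC

lemma poch_eq (a : ℕ) (ha : 1 ≤ a) : poch a = Q ℤ a 5 := by
  have hf := good_one_sub (R := ℤ) ha (show 1 ≤ 5 by norm_num)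
  have h : IP (fun i => 1 - (X : ℤ⟦X⟧) ^ (5 * i + a)) (poch a) := by
    refine ⟨hf, fun n => ?_⟩
    rw [X_pow_dvd_iff]
    intro m hm
    unfold poch
    rw [map_sub, coeff_mk, sub_eq_zero]
    have h := good_tail hf (n := m + 1) (m := n) (by omega)
    have h2 := (X_pow_dvd_iff.1 h) m (Nat.lt_succ_self m)
    rw [map_sub, sub_eq_zero] at h2
    exact h2.symm
  exact h.unique (Q_spec ha (by norm_num))

lemma R_eq : R = sA * iv sB := by
  have hB : constantCoeff sB = 1 := sB_const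
  have h23 : constantCoeff (Q ℤ 2 5 * Q ℤ 3 5) = 1 := by
    rw [map_mul, Q_const (by norm_num) (by norm_num), Q_const (by norm_num) (by norm_num), one_mul]
  unfold R
  rw [poch_eq 1 le_rfl, poch_eq 4 (by norm_num), poch_eq 2 (by norm_num), poch_eq 3 (by norm_num)]
  have h1 := mul_iv h23
  have h2 := mul_iv hB
  change Q ℤ 1 5 * Q ℤ 4 5 * iv (Q ℤ 2 5 * Q ℤ 3 5) = _
  rw [A_prod]
  have hne : Q ℤ 5 5 ≠ 0 := Q_ne (by norm_num) (by norm_num)
  rw [B_prod] at h2 ⊢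
  generalize iv (Q ℤ 2 5 * Q ℤ 3 5) = i at *
  generalize iv (Q ℤ 2 5 * Q ℤ 3 5 * Q ℤ 5 5) = j at *
  linear_combination (Q ℤ 1 5 * Q ℤ 4 5 * Q ℤ 5 5 * j) * h1 - (Q ℤ 1 5 * Q ℤ 4 5 * i) * h2

lemma iv_const {f : ℤ⟦X⟧} (h : constantCoeff f = 1) : constantCoeff (iv f) = 1 := by
  have := congrArg (constantCoeff (R := ℤ)) (mul_iv h)
  rwa [map_mul, h, one_mul, map_one] at this

lemma R_mul : R * sB = sA := by
  rw [R_eq]
  linear_combination sA * mul_iv sB_const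

lemma R5_mul : R5 * V ℤ 5 sB = V ℤ 5 sA := by
  have h := congrArg (V ℤ 5) R_mul
  rwa [map_mul] at h

lemma R_const : constantCoeff R = 1 := by
  rw [R_eq, map_mul, sA_const, iv_const sB_const, one_mul]

lemma R5_const : constantCoeff R5 = 1 := by
  have h : R5 = V ℤ 5 R := rfl
  rw [h, V_const, R_const]

lemma C_rel : (R ^ 5 * invOfUnit R5 1) * (1 + 3 * x + 4 * x ^ 2 + 2 * x ^ 3 + x ^ 4) =
    1 - 2 * x + 4 * x ^ 2 - 3 * x ^ 3 + x ^ 4 := by
  have h1 := R1x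
  have h2 := R_mul
  have h3 := R5_mul
  have hA := sA_const
  have hB := sB_const
  have hA5 : constantCoeff (V ℤ 5 sA) = 1 := by rw [V_const, hA]
  have hB5 : constantCoeff (V ℤ 5 sB) = 1 := by rw [V_const, hB]
  have h4 : R5 * invOfUnit R5 1 = 1 := mul_iv R5_const
  have hne : sB ^ 5 * V ℤ 5 sA * R5 ≠ 0 :=
    mul_ne_zero (mul_ne_zero (pow_ne_zero _ (ne_of_const hB)) (ne_of_const hA5)) (ne_of_const R5_const)
  apply mul_left_cancel₀ hne
  have h5 : (R * sB) ^ 5 = sA ^ 5 := by rw [h2]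
  generalize V ℤ 5 sA = a at *
  generalize V ℤ 5 sB = b at *
  generalize invOfUnit R5 1 = i at *
  -- R^5 sB^5 = sA^5, R5 b = a
  have e1 : sB ^ 5 * a * R5 * (R ^ 5 * i * (1 + 3 * x + 4 * x ^ 2 + 2 * x ^ 3 + x ^ 4)) =
      sA ^ 5 * a * (1 + 3 * x + 4 * x ^ 2 + 2 * x ^ 3 + x ^ 4) := by
    rw [← h5]
    linear_combination ((R * sB) ^ 5 * a * (1 + 3 * x + 4 * x ^ 2 + 2 * x ^ 3 + x ^ 4)) * h4
  rw [e1]
  have e2 : sA ^ 5 * a * (1 + 3 * x + 4 * x ^ 2 + 2 * x ^ 3 + x ^ 4) =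
      R5 * (sA ^ 5 * b * (1 + 3 * x + 4 * x ^ 2 + 2 * x ^ 3 + x ^ 4)) := by
    rw [← h3]
    ring
  rw [e2, ← h1]
  ring

lemma D_rel : (R5 * invOfUnit (R ^ 5) 1) * (1 - 2 * x + 4 * x ^ 2 - 3 * x ^ 3 + x ^ 4) =
    1 + 3 * x + 4 * x ^ 2 + 2 * x ^ 3 + x ^ 4 := by
  have h1 := C_rel
  have h4 : R5 * invOfUnit R5 1 = 1 := mul_iv R5_const
  have h5 : R ^ 5 * invOfUnit (R ^ 5) 1 = 1 := mul_iv (by rw [map_pow, R_const, one_pow])
  rw [← h1]
  linear_combination (R ^ 5 * invOfUnit (R ^ 5) 1 * (1 + 3 * x + 4 * x ^ 2 + 2 * x ^ 3 + x ^ 4)) * h4 +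
    (1 + 3 * x + 4 * x ^ 2 + 2 * x ^ 3 + x ^ 4) * h5

lemma three_of {F : ℤ⟦X⟧} (n : ℕ) (h : coeff n (m3 F) = 0) : (3 : ℤ) ∣ coeff n F := by
  rw [coeff_m3] at h
  exact (ZMod.intCast_zmod_eq_zero_iff_dvd _ 3).1 h

theorem result (n : ℕ) :
    (3 : ℤ) ∣ Cc (27 * n + 18) ∧ (3 : ℤ) ∣ Dc (27 * n + 18) ∧
    (4 : ℤ) ∣ Cc (16 * n + 12) ∧ (4 : ℤ) ∣ Dc (16 * n + 12) ∧
    (8 : ℤ) ∣ Cc (32 * n + 28) ∧ (8 : ℤ) ∣ Dc (32 * n + 28) := by
  have hC := good_F C_rel n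
  have hD := good_D D_rel n
  refine ⟨?_, ?_, hC.1, hD.1, hC.2, hD.2⟩
  · apply three_of
    refine F_three ?_ n
    have h := congrArg m3 C_rel
    simp only [map_mul, map_add, map_sub, map_pow, map_one, map_ofNat] at h
    change m3 (R ^ 5 * invOfUnit R5 1) * _ = _
    simp only [map_mul, map_pow]
    unfold z3
    linear_combination h
  · apply three_of
    refine D_three ?_ n
    have h := congrArg m3 D_rel
    simp only [map_mul, map_add, map_sub, map_pow, map_one, map_ofNat] at h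
    change m3 (R5 * invOfUnit (R ^ 5) 1) * _ = _
    simp only [map_mul]
    unfold z3
    linear_combination h

end Pool.Agent.Results.MP_54ec50_nt.AllSixCongruences
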